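import Pool.Agent.FCat.RadE

/-!
The generalised Fermat equation with coefficients of small radical and a large exponent has at most
`K N^ε` solutions of size at most `N`.
-/

set_option autoImplicit false

namespace Pool.Agent.Results.MP_be1fae_nt.AlmostPowers

open Pool.Agent.FCat

/-- For every `ε > 0` there are `R`, `K` such that for all `N ≥ 1` at most `K N^ε` triples
`(a x^p, b y^q, c z^r)` of integers of size at most `N` come from solutions of
`a x^p + b y^q = c z^r` in nonzero integers (no coprimality) with `p, q, r ≥ 2`,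
`max(p, q, r) ≥ R` and `rad(abc)^R ≤ N`. -/
theorem result (ε : ℝ) (hε : 0 < ε) :
    ∃ R : ℕ, ∃ K : ℝ, ∀ N : ℕ, 1 ≤ N → ((TrRad R N).ncard : ℝ) ≤ K * (N : ℝ) ^ ε := by
  obtain ⟨R, K, -, h⟩ := trRad_card ε hε
  exact ⟨R, K, h⟩

end Pool.Agent.Results.MP_be1fae_nt.AlmostPowers
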