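import Pool.Agent.EMu.Final

/-!
The abc inequality and the generalised Fermat equation with S-unit coefficients for every positive multiplier `α` of
the middle term and almost every positive multiplier `β` of the last term, with the exact Hausdorff dimensions of the
sets of exceptional multipliers `β` and `(α, β)`.
-/

set_option autoImplicit false

namespace Pool.Agent.Results.MP_be1fae_nt.ExceptionalMultipliers

open MeasureTheory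

/-- the product of the primes dividing `n` -/
def rad (n : ℤ) : ℕ := ∏ p ∈ n.natAbs.primeFactors, p

/-- the linear form `A + α B - β C` -/
def lin (α β : ℝ) (T : ℤ × ℤ × ℤ) : ℝ := T.1 + α * T.2.1 - β * T.2.2

/-- `max |A| |B| |C|` -/
noncomputable def size (T : ℤ × ℤ × ℤ) : ℝ := max |(T.1 : ℝ)| (max |(T.2.1 : ℝ)| |(T.2.2 : ℝ)|)

/-- nonzero integers all of whose prime divisors lie in `S` -/
def IsSUnit (S : Finset ℕ) (a : ℤ) : Prop := a ≠ 0 ∧ ∀ l : ℕ, l.Prime → (l : ℤ) ∣ a → l ∈ S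

/-- the triples `(a x^p, b y^q, c z^r)` with S-units `a, b, c` and nonzero integers `x, y, z` -/
def TermsSig (S : Finset ℕ) (p q r : ℕ) : Set (ℤ × ℤ × ℤ) :=
  {T | ∃ a b c x y z : ℤ, IsSUnit S a ∧ IsSUnit S b ∧ IsSUnit S c ∧ x ≠ 0 ∧ y ≠ 0 ∧ z ≠ 0 ∧
    T = (a * x ^ p, b * y ^ q, c * z ^ r)}

/-- the same for all exponents with `1/p + 1/q + 1/r < 1` together -/
def Terms (S : Finset ℕ) : Set (ℤ × ℤ × ℤ) :=
  {T | ∃ p q r : ℕ, 0 < p ∧ 0 < q ∧ 0 < r ∧ (1 : ℝ) / p + 1 / q + 1 / r < 1 ∧ T ∈ TermsSig S p q r}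

/-- all three terms are positive -/
def Pos (T : ℤ × ℤ × ℤ) : Prop := 0 < T.1 ∧ 0 < T.2.1 ∧ 0 < T.2.2

/-- the triples `(x^p, y^3, z^2)` with positive `x, y, z` and `gcd(x, z) = 1` -/
def Pure (p : ℕ) : Set (ℤ × ℤ × ℤ) :=
  {T | ∃ x y z : ℤ, 0 < x ∧ 0 < y ∧ 0 < z ∧ Int.gcd x z = 1 ∧ T = (x ^ p, y ^ 3, z ^ 2)}

theorem terms_eq (S : Finset ℕ) : Terms S = MAbc.Terms S := by
  ext T
  constructor
  · rintro ⟨p, q, r, hp, hq, hr, h, a, b, c, x, y, z, ha, hb, hc, hx, hy, hz, hT⟩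
    exact ⟨a, b, c, x, y, z, p, q, r, ha, hb, hc, hx, hy, hz, hp, hq, hr, h, hT⟩
  · rintro ⟨a, b, c, x, y, z, p, q, r, ha, hb, hc, hx, hy, hz, hp, hq, hr, h, hT⟩
    exact ⟨p, q, r, hp, hq, hr, h, a, b, c, x, y, z, ha, hb, hc, hx, hy, hz, hT⟩

theorem result :
    -- the abc inequality for every `α > 0` and almost every `β > 0`
    (∀ α : ℝ, 0 < α → ∀ᵐ β : ℝ, 0 < β → ∀ ε : ℝ, 0 < ε → {T : ℤ × ℤ × ℤ | Pos T ∧
      (rad T.1 : ℝ) * rad T.2.1 * rad T.2.2 * |lin α β T| < size T ^ (1 - ε)}.Finite) ∧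
    -- all signatures: the exceptional multipliers `β`, for `|A + α B - β C| ≤ max^h`
    (∀ α : ℝ, 0 < α → ∀ h : ℝ, h < 1 / 42 →
      dimH {β : ℝ | 0 < β ∧ ∃ S : Finset ℕ, {T : ℤ × ℤ × ℤ | T ∈ Terms S ∧ Pos T ∧
        |lin α β T| ≤ size T ^ h}.Infinite} = ENNReal.ofReal (41 / (42 * (1 - h))) ∧
      dimH {β : ℝ | 0 < β ∧ {T : ℤ × ℤ × ℤ | T ∈ Pure 7 ∧
        |lin α β T| ≤ size T ^ h}.Infinite} = ENNReal.ofReal (41 / (42 * (1 - h)))) ∧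
    -- the equation with integer parts
    (∀ α : ℝ, 0 < α →
      dimH {β : ℝ | 0 < β ∧ ∃ S : Finset ℕ, {T : ℤ × ℤ × ℤ | T ∈ Terms S ∧ Pos T ∧
        T.1 + ⌊α * T.2.1⌋ = ⌊β * T.2.2⌋}.Infinite} = ENNReal.ofReal (41 / 42) ∧
      dimH {β : ℝ | 0 < β ∧ {T : ℤ × ℤ × ℤ | T ∈ Pure 7 ∧
        T.1 + ⌊α * T.2.1⌋ = ⌊β * T.2.2⌋}.Infinite} = ENNReal.ofReal (41 / 42)) ∧
    -- one signature
    (∀ α : ℝ, 0 < α → ∀ p q r : ℕ, 0 < p → 0 < q → 0 < r → ∀ h : ℝ, h < 1 →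
      dimH {β : ℝ | 0 < β ∧ ∃ S : Finset ℕ, {T : ℤ × ℤ × ℤ | T ∈ TermsSig S p q r ∧ Pos T ∧
        |lin α β T| ≤ size T ^ h}.Infinite} ≤
        ENNReal.ofReal ((1 / (p : ℝ) + 1 / (q : ℝ) + 1 / (r : ℝ)) / (1 - h))) ∧
    (∀ α : ℝ, 0 < α → ∀ p : ℕ, 7 ≤ p → ∀ h : ℝ, h < 1 / 6 - 1 / (p : ℝ) →
      dimH {β : ℝ | 0 < β ∧ ∃ S : Finset ℕ, {T : ℤ × ℤ × ℤ | T ∈ TermsSig S p 3 2 ∧ Pos T ∧
        |lin α β T| ≤ size T ^ h}.Infinite} = ENNReal.ofReal ((5 / 6 + 1 / (p : ℝ)) / (1 - h)) ∧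
      dimH {β : ℝ | 0 < β ∧ {T : ℤ × ℤ × ℤ | T ∈ Pure p ∧
        |lin α β T| ≤ size T ^ h}.Infinite} = ENNReal.ofReal ((5 / 6 + 1 / (p : ℝ)) / (1 - h))) ∧
    -- two multipliers
    (∀ η : ℝ, 0 ≤ η → η < 1 / 42 →
      dimH {v : ℝ × ℝ | ∃ S : Finset ℕ, {T : ℤ × ℤ × ℤ | T ∈ Terms S ∧
        |lin v.1 v.2 T| ≤ size T ^ η}.Infinite} = ENNReal.ofReal (1 + 41 / (42 * (1 - η)))) := by
  refine ⟨?_, ?_, ?_, ?_, ?_, ?_⟩
  · intro α hα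
    filter_upwards [EMu.ae_abc hα] with β hβ hβ0 ε hε
    refine (hβ hβ0 ε hε).subset ?_
    rintro T ⟨⟨h1, h2, h3⟩, h4⟩
    exact ⟨h1, h2, h3, h4⟩
  · intro α hα h hh
    simp only [terms_eq]
    exact EMu.dim_near_terms hα hh
  · intro α hα
    simp only [terms_eq]
    exact EMu.dim_floor_terms hα
  · intro α hα p q r hp hq hr h hh
    exact EMu.dim_sig_upper hα hh hp hq hr
  · intro α hα p hp h hh
    exact EMu.dim_near_sig hα hp hh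
  · intro η hη0 hη
    simp only [terms_eq]
    exact EMu.dim_plane hη0 hη

end Pool.Agent.Results.MP_be1fae_nt.ExceptionalMultipliers
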