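import Pool.Agent.MAbc.Sig
import Pool.Agent.MAbc.Sharp
import Pool.Agent.MAbc.Dim

/-!
The abc inequality and the generalised Fermat equation with S-unit coefficients for almost all real multipliers
`(α, β)`: the linear form `A + α B - β C` at the triples of terms `(A, B, C) = (a x^p, b y^q, c z^r)`.
-/

set_option autoImplicit false

namespace Pool.Agent.Results.MP_be1fae_nt.MetricAbc

open MeasureTheory

/-- the product of the primes dividing `n` -/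
def rad (n : ℤ) : ℕ := ∏ p ∈ n.natAbs.primeFactors, p

/-- the linear form `A + α B - β C` -/
def lin (v : ℝ × ℝ) (T : ℤ × ℤ × ℤ) : ℝ := T.1 + v.1 * T.2.1 - v.2 * T.2.2

/-- `max |A| |B| |C|` -/
noncomputable def size (T : ℤ × ℤ × ℤ) : ℝ := max |(T.1 : ℝ)| (max |(T.2.1 : ℝ)| |(T.2.2 : ℝ)|)

/-- nonzero integers all of whose prime divisors lie in `S` -/
def IsSUnit (S : Finset ℕ) (a : ℤ) : Prop := a ≠ 0 ∧ ∀ l : ℕ, l.Prime → (l : ℤ) ∣ a → l ∈ S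

/-- the triples `(a x^p, b y^q, c z^r)` with S-units `a, b, c` and nonzero integers `x, y, z` -/
def TermsSig (S : Finset ℕ) (p q r : ℕ) : Set (ℤ × ℤ × ℤ) :=
  {T | ∃ a b c x y z : ℤ, IsSUnit S a ∧ IsSUnit S b ∧ IsSUnit S c ∧ x ≠ 0 ∧ y ≠ 0 ∧ z ≠ 0 ∧
    T = (a * x ^ p, b * y ^ q, c * z ^ r)}

/-- the same for all exponents with `1/p + 1/q + 1/r < 1` together -/
def Terms (S : Finset ℕ) : Set (ℤ × ℤ × ℤ) :=
  {T | ∃ p q r : ℕ, 0 < p ∧ 0 < q ∧ 0 < r ∧ (1 : ℝ) / p + 1 / q + 1 / r < 1 ∧ T ∈ TermsSig S p q r}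

theorem terms_eq (S : Finset ℕ) : Terms S = MAbc.Terms S := by
  ext T
  constructor
  · rintro ⟨p, q, r, hp, hq, hr, h, a, b, c, x, y, z, ha, hb, hc, hx, hy, hz, hT⟩
    exact ⟨a, b, c, x, y, z, p, q, r, ha, hb, hc, hx, hy, hz, hp, hq, hr, h, hT⟩
  · rintro ⟨a, b, c, x, y, z, p, q, r, ha, hb, hc, hx, hy, hz, hp, hq, hr, h, hT⟩
    exact ⟨p, q, r, hp, hq, hr, h, a, b, c, x, y, z, ha, hb, hc, hx, hy, hz, hT⟩

theorem infinite_of_near {p q r : ℕ} (hp : 0 < p) (hq : 0 < q) (hr : 0 < r) {e : ℝ} {v : ℝ × ℝ}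
    (h : (MAbc.Near p q r e v).Infinite) :
    {T : ℤ × ℤ × ℤ | (∃ x y z : ℤ, 0 < x ∧ 0 < y ∧ 0 < z ∧ T = (x ^ p, y ^ q, z ^ r)) ∧
      |lin v T| < size T ^ e}.Infinite := by
  let f : ℕ × ℕ × ℕ → ℤ × ℤ × ℤ := fun t => ((t.1 : ℤ) ^ p, (t.2.1 : ℤ) ^ q, (t.2.2 : ℤ) ^ r)
  have hinj : Set.InjOn f (MAbc.Near p q r e v) := by
    intro s _ t _ hst
    have h1 : (s.1 : ℤ) ^ p = (t.1 : ℤ) ^ p := congrArg (fun T : ℤ × ℤ × ℤ => T.1) hst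
    have h2 : (s.2.1 : ℤ) ^ q = (t.2.1 : ℤ) ^ q := congrArg (fun T : ℤ × ℤ × ℤ => T.2.1) hst
    have h3 : (s.2.2 : ℤ) ^ r = (t.2.2 : ℤ) ^ r := congrArg (fun T : ℤ × ℤ × ℤ => T.2.2) hst
    have e1 : s.1 = t.1 := Nat.pow_left_injective hp.ne' (by exact_mod_cast h1)
    have e2 : s.2.1 = t.2.1 := Nat.pow_left_injective hq.ne' (by exact_mod_cast h2)
    have e3 : s.2.2 = t.2.2 := Nat.pow_left_injective hr.ne' (by exact_mod_cast h3)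
    exact Prod.ext e1 (Prod.ext e2 e3)
  refine (h.image hinj).mono ?_
  rintro T ⟨t, ⟨h1, h2, h3, h4⟩, rfl⟩
  refine ⟨⟨t.1, t.2.1, t.2.2, by exact_mod_cast h1, by exact_mod_cast h2, by exact_mod_cast h3, rfl⟩, ?_⟩
  have e1 : lin v (f t) = (t.1 : ℝ) ^ p + v.1 * (t.2.1 : ℝ) ^ q - v.2 * (t.2.2 : ℝ) ^ r := by
    simp only [lin, f]
    push_cast
    ring
  have e2 : size (f t) = MAbc.mxN p q r t := by
    simp only [size, f, MAbc.mxN]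
    push_cast
    rw [abs_of_nonneg (by positivity), abs_of_nonneg (by positivity), abs_of_nonneg (by positivity)]
  rw [e1, e2]
  exact h4

theorem result :
    (∀ᵐ v : ℝ × ℝ, ∀ ε : ℝ, 0 < ε → {T : ℤ × ℤ × ℤ | T.1 ≠ 0 ∧ T.2.1 ≠ 0 ∧ T.2.2 ≠ 0 ∧
      (rad T.1 : ℝ) * rad T.2.1 * rad T.2.2 * |lin v T| < size T ^ (1 - ε)}.Finite) ∧
    (∀ᵐ v : ℝ × ℝ, ∀ S : Finset ℕ,
      (∀ ε : ℝ, 0 < ε → {T : ℤ × ℤ × ℤ | T ∈ Terms S ∧ |lin v T| ≤ size T ^ (1 / 42 - ε)}.Finite) ∧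
      {T : ℤ × ℤ × ℤ | T ∈ Terms S ∧ T.1 + ⌊v.1 * T.2.1⌋ = ⌊v.2 * T.2.2⌋}.Finite) ∧
    (∀ᵐ v : ℝ × ℝ, ∀ p q r : ℕ, 0 < p → 0 < q → 0 < r → ∀ ε : ℝ, 0 < ε →
      (∀ S : Finset ℕ, {T : ℤ × ℤ × ℤ | T ∈ TermsSig S p q r ∧
        |lin v T| < size T ^ (1 - 1 / (p : ℝ) - 1 / (q : ℝ) - 1 / (r : ℝ) - ε)}.Finite) ∧
      (0 < v.1 → 0 < v.2 →
        {T : ℤ × ℤ × ℤ | (∃ x y z : ℤ, 0 < x ∧ 0 < y ∧ 0 < z ∧ T = (x ^ p, y ^ q, z ^ r)) ∧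
          |lin v T| < size T ^ (1 - 1 / (p : ℝ) - 1 / (q : ℝ) - 1 / (r : ℝ) + ε)}.Infinite)) ∧
    (∀ η : ℝ, 0 ≤ η → η < 1 / 42 →
      dimH {v : ℝ × ℝ | ∃ S : Finset ℕ, {T : ℤ × ℤ × ℤ | T ∈ Terms S ∧ |lin v T| ≤ size T ^ η}.Infinite} ≤
        ENNReal.ofReal (1 + 41 / (42 * (1 - η)))) := by
  refine ⟨MAbc.metric_abc, ?_, ?_, ?_⟩
  · filter_upwards [MAbc.metric_S, MAbc.metric_floor] with v h1 h2 S
    rw [terms_eq]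
    exact ⟨h1 S, h2 S⟩
  · have h : ∀ᵐ v : ℝ × ℝ, ∀ p q r : ℕ, 0 < p → 0 < q → 0 < r → 0 < v.1 → 0 < v.2 → ∀ ε : ℝ, 0 < ε →
        (MAbc.Near p q r (1 - 1 / (p : ℝ) - 1 / (q : ℝ) - 1 / (r : ℝ) + ε) v).Infinite := by
      rw [ae_all_iff]
      intro p
      rw [ae_all_iff]
      intro q
      rw [ae_all_iff]
      intro r
      by_cases hpqr : 0 < p ∧ 0 < q ∧ 0 < r
      · filter_upwards [MAbc.sharp hpqr.1 hpqr.2.1 hpqr.2.2] with v hv _ _ _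
        exact hv
      · exact Filter.Eventually.of_forall (fun v hp hq hr => absurd ⟨hp, hq, hr⟩ hpqr)
    filter_upwards [MAbc.metric_sig, h] with v h1 h2 p q r hp hq hr ε hε
    exact ⟨fun S => h1 p q r hp hq hr S ε hε,
      fun hv1 hv2 => infinite_of_near hp hq hr (h2 p q r hp hq hr hv1 hv2 ε hε)⟩
  · intro η hη0 hη
    have e : ∀ v : ℝ × ℝ, (∃ S : Finset ℕ, {T : ℤ × ℤ × ℤ | T ∈ Terms S ∧ |lin v T| ≤ size T ^ η}.Infinite) ↔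
        (∃ S : Finset ℕ, {T : ℤ × ℤ × ℤ | T ∈ MAbc.Terms S ∧
          |T.1 + v.1 * T.2.1 - v.2 * T.2.2| ≤ MAbc.mx T.1 T.2.1 T.2.2 ^ η}.Infinite) := by
      intro v
      apply exists_congr
      intro S
      rw [terms_eq]
      exact Iff.rfl
    simp only [e]
    exact MAbc.dim_terms hη0 hη

end Pool.Agent.Results.MP_be1fae_nt.MetricAbc
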