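import Pool.Agent.UFC.Final

/-!
Generalised Fermat equations with coefficients of small radical have at most `K N^ε` coprime solutions of
size at most `N`, all hyperbolic signatures together.
-/

set_option autoImplicit false

namespace Pool.Agent.Results.MP_be1fae_nt.UniformCount

open Pool.Agent.UFC

/-- For every `ε > 0` there are `η > 0` and `K` such that for all `N ≥ 1` at most `K N^ε` triples
`(a x^p, b y^q, c z^r)` of integers of size at most `N` come from solutions of
`a x^p + b y^q = c z^r` in nonzero integers with `gcd (ax, by, cz) = 1`, `1/p + 1/q + 1/r < 1` and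
`rad (abc) ≤ N^η`. -/
theorem result (ε : ℝ) (hε : 0 < ε) :
    ∃ η : ℝ, 0 < η ∧ ∃ K : ℝ, ∀ N : ℕ, 1 ≤ N →
      ((TrUni η N).ncard : ℝ) ≤ K * (N : ℝ) ^ ε :=
  uni_count ε hε

end Pool.Agent.Results.MP_be1fae_nt.UniformCount
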